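import Pool.Agent.H7.KQ.Stmts

/-!
# Row PRT of board `kq`: the parts of a clique indexed by `Fin (p + 3)`
-/

set_option autoImplicit false

open Finset

namespace Pool.KQ

open Pool.Agent.H23.KT Pool.Agent.H46.KW

theorem prt : PRTStmt := by
  intro V _ G p W hCB L hL
  have hcard := ((mem_clq G).1 hL).2.1
  refine ⟨fun i => cn G W (L.erase ((L.equivFinOfCardEq hcard).symm i : V)), ⟨?_, ?_⟩, ?_, ?_⟩
  · intro i j hij
    apply parts_disj hCB hL
    intro h
    exact hij ((L.equivFinOfCardEq hcard).symm.injective (Subtype.ext h))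
  · intro i u hu w hw
    exact parts_ind hCB hL ((L.equivFinOfCardEq hcard).symm i).2 hu hw
  · intro i
    exact cn_subset _ _
  · rw [← Finset.sum_coe_sort L (fun z => nz G W L z)]
    exact Equiv.sum_comp (L.equivFinOfCardEq hcard).symm (fun z : L => nz G W L z)

end Pool.KQ
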