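import Pool.Agent.H7.KQ.Stmts

/-!
# Row RPI of board `kq`: good vertices form disjoint independent sets
-/

set_option autoImplicit false

open Finset

namespace Pool.KQ

open Pool.Agent.H23.KT Pool.Agent.H46.KW

theorem nb_non_H86 {V : Type} (G : SimpleGraph V) (X : Finset V) (u : V) :
    (nb G X u).card + (non G X u).card = X.card := by
  classical
  unfold nb non
  exact Finset.card_filter_add_card_filter_not _

/-- a clique made of `X` and of the images of the indices in `T` -/
theorem clique_bound_H86 {V : Type} [DecidableEq V] (G : SimpleGraph V) (p : ℕ) (W : Finset V)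
    (hCB : CB G W (p + 3)) (f : Fin (p + 3) → V) (hadj : ∀ i j, i ≠ j → G.Adj (f i) (f j))
    (X : Finset V) (hX : X ⊆ W) (hXc : G.IsClique (X : Set V)) (T : Finset (Fin (p + 3)))
    (hT : ∀ l ∈ T, f l ∈ W ∧ ∀ x ∈ X, G.Adj x (f l)) : X.card + T.card ≤ p + 3 := by
  have hinj : Function.Injective f := by
    intro i j hij
    by_contra hne
    have := hadj i j hne
    rw [hij] at this
    exact G.loopless.irrefl _ this
  have hdisj : Disjoint X (T.image f) := by
    rw [disjoint_left]
    intro x hx hx'
    obtain ⟨l, hl, rfl⟩ := mem_image.1 hx'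
    exact G.loopless.irrefl _ ((hT l hl).2 _ hx)
  have hcard : (X ∪ T.image f).card = X.card + T.card := by
    rw [card_union_of_disjoint hdisj, card_image_of_injective _ hinj]
  rw [← hcard]
  apply hCB
  · intro x hx
    rcases mem_union.1 hx with h | h
    · exact hX h
    · obtain ⟨l, hl, rfl⟩ := mem_image.1 h
      exact (hT l hl).1
  · intro x hx y hy hxy
    rw [mem_coe, mem_union] at hx hy
    rcases hx with hx | hx <;> rcases hy with hy | hy
    · exact hXc (mem_coe.2 hx) (mem_coe.2 hy) hxy
    · obtain ⟨l, hl, rfl⟩ := mem_image.1 hy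
      exact (hT l hl).2 x hx
    · obtain ⟨l, hl, rfl⟩ := mem_image.1 hx
      exact ((hT l hl).2 y hy).symm
    · obtain ⟨l, hl, rfl⟩ := mem_image.1 hx
      obtain ⟨m, hm, rfl⟩ := mem_image.1 hy
      exact hadj l m (fun h => hxy (by rw [h]))

/-- large subsets of the parts contain a transversal which is a clique -/
theorem trv_nonempty_H86 (hB : BRKStmt) (p a : ℕ) (C : ℝ) (ha0 : 1 ≤ a)
    (ha : C * 2 ^ (2 * p + 4) < (a : ℝ))
    {V : Type} [DecidableEq V] (G : SimpleGraph V) (A : Fin (p + 3) → Finset V)
    (hup : ∀ i, ((A i).card : ℝ) ≤ 5 / 4 * a) (htot : (tot G A : ℝ) ≤ C * a)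
    (S : Fin (p + 3) → Finset V) (hS : ∀ i, S i ⊆ A i) (hlo : ∀ i, (a : ℝ) / 2 ≤ ((S i).card : ℝ)) :
    ∃ f : Fin (p + 3) → V, (∀ i, f i ∈ S i) ∧ ∀ i j, i ≠ j → G.Adj (f i) (f j) := by
  classical
  by_contra hcon
  have hemp : (trv G S).card = 0 := by
    rw [card_eq_zero, eq_empty_iff_forall_notMem]
    intro f hf
    unfold trv at hf
    rw [mem_filter, Fintype.mem_piFinset] at hf
    exact hcon ⟨f, hf.1, hf.2⟩
  have haR : (0 : ℝ) < (a : ℝ) := by exact_mod_cast ha0
  have hcardle : ∀ i, (S i).card ≤ 2 * a := by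
    intro i
    have h1 : ((S i).card : ℝ) ≤ ((A i).card : ℝ) := by exact_mod_cast card_le_card (hS i)
    have h2 : ((S i).card : ℝ) ≤ 2 * (a : ℝ) := by linarith [hup i]
    exact_mod_cast h2
  have h1 := (hB G p S).1 (2 * a) hcardle
  rw [hemp, zero_add] at h1
  have h2 := (hB G p A).2.2 S hS
  have h3 : ((∏ i, (S i).card : ℕ) : ℝ) ≤ (tot G A : ℝ) * (2 * (a : ℝ)) ^ (p + 1) := by
    have h4 : ∏ i, (S i).card ≤ tot G A * (2 * a) ^ (p + 1) :=
      h1.trans (Nat.mul_le_mul_right _ h2)
    exact_mod_cast h4
  have h5 : ((a : ℝ) / 2) ^ (p + 3) ≤ ((∏ i, (S i).card : ℕ) : ℝ) := by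
    rw [Nat.cast_prod]
    calc ((a : ℝ) / 2) ^ (p + 3) = ∏ _i : Fin (p + 3), ((a : ℝ) / 2) := by
          rw [prod_const, card_univ, Fintype.card_fin]
      _ ≤ ∏ i, ((S i).card : ℝ) :=
          prod_le_prod (fun i _ => by positivity) (fun i _ => hlo i)
  have h6 : ((a : ℝ) / 2) ^ (p + 3) ≤ (C * a) * (2 * (a : ℝ)) ^ (p + 1) := by
    refine h5.trans (h3.trans ?_)
    exact mul_le_mul_of_nonneg_right htot (by positivity)
  have h7 : (a : ℝ) ^ (p + 2) * a ≤ (a : ℝ) ^ (p + 2) * (C * 2 ^ (2 * p + 4)) := by
    have h8 : ((a : ℝ) / 2) ^ (p + 3) * 2 ^ (p + 3) = (a : ℝ) ^ (p + 2) * a := by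
      rw [← mul_pow]
      rw [div_mul_cancel₀ _ (by norm_num : (2 : ℝ) ≠ 0)]
      ring
    have h9 : ((C * a) * (2 * (a : ℝ)) ^ (p + 1)) * 2 ^ (p + 3) =
        (a : ℝ) ^ (p + 2) * (C * 2 ^ (2 * p + 4)) := by
      rw [mul_pow]
      have : (2 : ℝ) ^ (2 * p + 4) = 2 ^ (p + 1) * 2 ^ (p + 3) := by
        rw [← pow_add]
        congr 1
        ring
      rw [this]
      ring
    rw [← h8, ← h9]
    exact mul_le_mul_of_nonneg_right h6 (by positivity)
  have h10 := le_of_mul_le_mul_left h7 (by positivity)
  linarith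

theorem e1_le_H86 (p : ℕ) : e1 p ≤ 1 / 16 := by
  unfold e1
  have h : (1 : ℝ) ≤ ((p : ℝ) + 3) ^ 3 := by
    apply one_le_pow₀
    have : (0 : ℝ) ≤ (p : ℝ) := Nat.cast_nonneg _
    linarith
  apply one_div_le_one_div_of_le (by norm_num)
  linarith

theorem rpi (hB : BRKStmt) : RPIStmt := by
  classical
  intro p C
  refine ⟨⌈C * 2 ^ (2 * p + 4)⌉₊ + 1, ?_⟩
  intro a ha V _ G W A hCB hPar hAW hsz htot
  have ha1 : 1 ≤ a := by omega
  have haC : C * 2 ^ (2 * p + 4) < (a : ℝ) := by
    have h1 := Nat.le_ceil (C * 2 ^ (2 * p + 4))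
    have h2 : ((⌈C * 2 ^ (2 * p + 4)⌉₊ + 1 : ℕ) : ℝ) ≤ (a : ℝ) := by exact_mod_cast ha
    push_cast at h2
    linarith
  have haR : (0 : ℝ) < (a : ℝ) := by exact_mod_cast ha1
  have he := e1_le_H86 p
  have hea : e1 p / 2 * (a : ℝ) ≤ (a : ℝ) / 8 := by
    have : e1 p / 2 * (a : ℝ) ≤ (1 / 16) / 2 * (a : ℝ) := by
      apply mul_le_mul_of_nonneg_right _ haR.le
      linarith
    linarith
  have hup : ∀ i, ((A i).card : ℝ) ≤ 5 / 4 * a := fun i => (hsz i).2
  constructor
  · intro u hu
    by_contra hcon
    push Not at hcon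
    obtain ⟨f, hf, hadj⟩ := trv_nonempty_H86 hB p a C ha1 haC G A hup htot
      (fun l => nb G (A l) u) (fun l => by unfold nb; exact filter_subset _ _) (by
        intro l
        have h1 := nb_non_H86 G (A l) u
        have h2 : ((nb G (A l) u).card : ℝ) + ((non G (A l) u).card : ℝ) = ((A l).card : ℝ) := by
          exact_mod_cast h1
        have h3 := (hsz l).1
        have h4 := hcon l
        linarith)
    have hb := clique_bound_H86 G p W hCB f hadj {u} (by
        intro x hx
        rw [mem_singleton] at hx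
        rw [hx]
        exact hu) (by
        rw [coe_singleton]
        exact Set.pairwise_singleton _ _) univ (by
        intro l _
        have := (mem_nb G).1 (hf l)
        refine ⟨hAW l this.1, ?_⟩
        intro x hx
        rw [mem_singleton] at hx
        rw [hx]
        exact this.2)
    rw [card_singleton, card_univ, Fintype.card_fin] at hb
    omega
  · intro i u hu w hw hmu hmw huw
    obtain ⟨f, hf, hadj⟩ := trv_nonempty_H86 hB p a C ha1 haC G A hup htot
      (fun l => if l = i then A i else nb G (nb G (A l) u) w) (by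
        intro l
        by_cases hl : l = i
        · simp only [hl, if_true]
          exact subset_rfl
        · simp only [hl, if_false]
          unfold nb
          exact (filter_subset _ _).trans (filter_subset _ _)) (by
        intro l
        by_cases hl : l = i
        · simp only [hl, if_true]
          linarith [(hsz i).1]
        · simp only [hl, if_false]
          have h1 := nb_non_H86 G (A l) u
          have h2 := nb_non_H86 G (nb G (A l) u) w
          have h3 : (non G (nb G (A l) u) w).card ≤ (non G (A l) w).card := by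
            apply card_le_card
            unfold non nb
            exact filter_subset_filter _ (filter_subset _ _)
          have h4 : ((nb G (A l) u).card : ℝ) + ((non G (A l) u).card : ℝ) =
              ((A l).card : ℝ) := by exact_mod_cast h1
          have h5 : ((nb G (nb G (A l) u) w).card : ℝ) + ((non G (nb G (A l) u) w).card : ℝ) =
              ((nb G (A l) u).card : ℝ) := by exact_mod_cast h2
          have h6 : ((non G (nb G (A l) u) w).card : ℝ) ≤ ((non G (A l) w).card : ℝ) := by
            exact_mod_cast h3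
          linarith [(hsz l).1, hmu l hl, hmw l hl])
    have hne : u ≠ w := fun h => G.loopless.irrefl _ (h ▸ huw : G.Adj w w)
    have hb := clique_bound_H86 G p W hCB f hadj {u, w} (by
        intro x hx
        rw [mem_insert, mem_singleton] at hx
        rcases hx with rfl | rfl
        · exact hu
        · exact hw) (by
        rw [coe_pair]
        intro x hx y hy hxy
        simp only [Set.mem_insert_iff, Set.mem_singleton_iff] at hx hy
        rcases hx with rfl | rfl <;> rcases hy with rfl | rfl
        · exact absurd rfl hxy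
        · exact huw
        · exact huw.symm
        · exact absurd rfl hxy) (univ.erase i) (by
        intro l hl
        have hl' : l ≠ i := ne_of_mem_erase hl
        have h1 := hf l
        simp only [hl', if_false] at h1
        have h2 := (mem_nb G).1 h1
        have h3 := (mem_nb G).1 h2.1
        refine ⟨hAW l h3.1, ?_⟩
        intro x hx
        rw [mem_insert, mem_singleton] at hx
        rcases hx with rfl | rfl
        · exact h3.2
        · exact h2.2)
    rw [card_pair hne, card_erase_of_mem (mem_univ i), card_univ, Fintype.card_fin] at hb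
    omega

end Pool.KQ
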